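import Pool.Agent.W2helper59.PE.Final

/-!
# Parsing expression languages are not closed under concatenation

There is a parsing expression language `L₁` over an alphabet with eight letters such that the
language `L₁ Σ*` is not a parsing expression language.

## The language `L₁`

Words are read from the right to the left. A machine with a few bits and a few registers that point
to immutable lists of bits executes the letters as instructions: load a bit of the own label, step
of an inner product of two lists, append the result to a list (so that a linear recurrence is
computed), add the result to an output bit, compare a letter with the next bit of the own label.
Pointers to the cells of the lists are suffixes of the input, so that this machine can be written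
as a parsing expression grammar. The first letter that is read has to be a marker `m`. Hence
`L₁ Σ*` consists of the words for which the machine accepts if it is started at some marker.

## The lower bound

The values `R(X, v)` of the nonterminals at the suffixes `v` of the input form a memory whose cells
are written once, from the right to the left, and each new cell is computed from a bounded number
of look-ups. Take words `query, V₁, …, V_E, labels` where the labels are all the pairs of the
coefficients and the initial values of linear recurrences `λ(β^j)`, with `β` in the field with
`2 ^ m` elements and `λ` a functional. The items of the epochs `V_i` (whose lengths grow
geometrically) carry arbitrary bits `x_j`; the word is in `L₁ Σ*` iff the sum of the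
`x_j λ(β^{m + j})` for the label in the query is `1`. As these sums form a code of small bias, a
random sample of few cells of an epoch would determine most of its bits, if a typical query made
few look-ups in this epoch (cell sampling). So for suitable bits the queries make on the average
at least of the order `m / log m` look-ups in each of the `m / log m` epochs, but the queries have
length `2 m` only.
-/

set_option autoImplicit false

namespace Pool.Agent.Results.MP_bdbe41_lc.NotClosed

open Pool.Agent.W2helper59.PE

/-- There are two parsing expression languages `L₁` and `L₂` over the same finite alphabet such that
their concatenation `L₁ L₂` is not a parsing expression language; `L₂` can even be the language of
all words. -/
theorem result : ∃ (A : Type) (_ : Finite A) (L₁ L₂ : Language A),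
    IsPEL L₁ ∧ IsPEL L₂ ∧ L₂ = ⊤ ∧ ¬ IsPEL (L₁ * L₂) :=
  ⟨Sym, inferInstance, L1, ⊤, isPEL_L1, isPEL_top, rfl, not_isPEL⟩

end Pool.Agent.Results.MP_bdbe41_lc.NotClosed
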